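import Pool.Agent.H8.UB.Targets

/-!
# Board `ubd_modules`, row LSF: countable algebraically closed fields suffice
-/

set_option autoImplicit false

open CategoryTheory

namespace Pool.Agent.H49.UB

open Pool.Agent.H8.UB Pool.Agent.H56.UDs

instance al_noeth {n : ℕ} {K : Type} [Field K] (s : SC n K) : IsNoetherianRing (Al s) := by
  have h1 : IsNoetherian K (Al s) := inferInstance
  exact isNoetherian_of_tower K h1

theorem countable_algClosure (k : Type) [Field k] [Countable k] :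
    Countable (AlgebraicClosure k) := by
  have h := Algebra.IsAlgebraic.cardinalMk_le_max k (AlgebraicClosure k)
  rw [← Cardinal.mk_le_aleph0_iff]
  refine h.trans (max_le ?_ le_rfl)
  exact Cardinal.mk_le_aleph0_iff.2 inferInstance

theorem pf_LSF (hLSG : T_LSG) (hFCL : T_FCL) (hRIG : T_RIG) (hMOC : T_MOC) (hMOU : T_MOU) :
    T_LSF := by
  intro K _ _ n s α hα hs
  rcases Nat.eq_zero_or_pos n with rfl | hn
  · -- the trivial ring
    let s₀ : SC 0 (AlgebraicClosure ℚ) :=
      ⟨fun i => i.elim0, fun i => i.elim0, fun i => i.elim0, fun i => i.elim0, fun i => i.elim0⟩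
    refine ⟨AlgebraicClosure ℚ, inferInstance, inferInstance, countable_algClosure ℚ, s₀, ?_⟩
    have h1 : ∀ (K' : Type) [Field K'] (s' : SC 0 K') (x y : Al s'), x = y :=
      fun K' _ s' x y => al_ext s' fun l => l.elim0
    have e : Al s₀ ≃+* Al s :=
      { toFun := fun _ => 0
        invFun := fun _ => 0
        left_inv := fun x => h1 _ s₀ _ _
        right_inv := fun x => h1 _ s _ _
        map_mul' := fun x y => h1 _ s _ _
        map_add' := fun x y => h1 _ s _ _ }
    rw [hRIG (Al s₀) (Al s) e, hs]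
  · obtain ⟨hcoh, hfp, -⟩ := hMOC (Al s)
    have := hcoh
    have : Fact (IsFP (UF (Al s))) := ⟨hfp⟩
    have hrk : rk.{0} (LL (UF (Al s))) = α := by
      rw [← hMOU (Al s), hs]
    obtain ⟨Φ, hΦ, hF⟩ := hFCL K n s hn
    obtain ⟨S₀, hc, hcl, hL⟩ := hLSG (Al s) α hrk (Set.Iio α) (by
      rw [← Cardinal.le_aleph0_iff_set_countable, Cardinal.mk_Iio_ordinal]
      rw [← Cardinal.lift_aleph0.{1, 0}, Cardinal.lift_le]
      exact hα) (fun ξ hξ => hξ) Φ hΦ
    obtain ⟨K₀, i1, i2, i3, s₀, ⟨e⟩⟩ := hF S₀ hc hcl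
    have hN : IsNoetherianRing S₀ := isNoetherianRing_of_ringEquiv (Al s₀) e.symm
    obtain ⟨ρ', h1, -, h2, h3⟩ := hL hN
    have h4 : ρ' = α := le_antisymm h2 (h3 α le_rfl fun δ hδ => hδ)
    refine ⟨K₀, i1, i2, i3, s₀, ?_⟩
    rw [← hRIG S₀ (Al s₀) e, h1, h4]

end Pool.Agent.H49.UB
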